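import Pool.Agent.Lib.MP_fb8dd6_al.Grp

/-!
A negative answer to Kokorin's question: an orderable group `G` with a family of relatively
convex subgroups whose union `H` is a subgroup, even a normal one, and which is not relatively
convex.
-/

namespace Pool.Agent.Results.MP_fb8dd6_al.KokorinUnion

open Pool.Agent.MP_fb8dd6_al Pool.Agent.MP_fb8dd6_al.NPS

/-- the union -/
def HG : Subgroup Gp where
  carrier := {x | x.β = 1 ∧ InH x.v}
  mul_mem' := by
    rintro x y ⟨hx, h⟩ ⟨hy, h'⟩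
    refine ⟨by rw [Gp.mul_β, hx, hy, one_mul], ?_⟩
    rw [v_mul_of hx]
    exact inH_add h h'
  one_mem' := ⟨rfl, inH_zero⟩
  inv_mem' := by
    rintro x ⟨hx, h⟩
    have h1' : (x⁻¹).β = 1 := by
      have := Gp.inv_β_mul x
      rwa [hx, mul_one] at this
    refine ⟨h1', ?_⟩
    have e : (x⁻¹).v = fun j => (-1) * x.v j := by
      funext j
      rw [Gp.inv_v, h1']
    rw [e]
    exact inH_mul _ h

theorem mem_HG (x : Gp) : x ∈ HG ↔ x.β = 1 ∧ InH x.v := Iff.rfl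

theorem normal_HG : HG.Normal := by
  constructor
  rintro x ⟨hx, h⟩ c
  refine ⟨by rw [conj_β, hx, mul_one, Gp.β_mul_inv], ?_⟩
  have e : (c * x * c⁻¹).v = fun j => c.β * x.v j := funext fun j => conj_v c hx j
  rw [e]
  exact inH_mul _ h

theorem infrainvariant_of_normal {G : Type} [Group G] {H : Subgroup G} (hH : H.Normal) :
    Infrainvariant H := by
  intro g
  left
  intro x hx
  rw [Subgroup.mem_map]
  refine ⟨g * x * g⁻¹, hH.conj_mem x hx g, ?_⟩
  simp only [MulEquiv.coe_toMonoidHom, MulAut.conj_apply]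
  group

/-- the basis element of the module part -/
def e (j : Fin 2) : Gp := ⟨1, fun i => if i = j then 1 else 0⟩

theorem exists_b (i j : Fin 2) : ∃ b : Gp, b.β = 1 + X (i, j) := by
  have h0 : (1 + X (i, j) : NPS Al ℤ).cf [] = 1 := by
    rw [add_cf, one_nil, X_nil, add_zero]
  obtain ⟨r, h1, h2, _⟩ := exists_inv (1 + X (i, j) : NPS Al ℤ) 1 (by rw [h0, mul_one])
  exact ⟨⟨⟨⟨1 + X (i, j), r, h1, h2⟩, h0⟩, fun _ => 0⟩, rfl⟩

theorem e_β (j : Fin 2) : (e j).β = 1 := rfl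

/-- the doubled basis element -/
theorem T_v (i j : Fin 2) {b : Gp} (hb : b.β = 1 + X (i, j)) (i' : Fin 2) :
    (e j * (b * e j * b⁻¹)).v i' = if i' = j then 2 + X (i, j) else 0 := by
  rw [Gp.mul_v, e_β, one_mul, conj_v b (e_β j), hb]
  show (if i' = j then (1 : NPS Al ℤ) else 0) + (1 + X (i, j)) * (if i' = j then 1 else 0) = _
  by_cases h : i' = j
  · simp only [if_pos h, mul_one]
    rw [← add_assoc, one_add_one_eq_two]
  · simp only [if_neg h, mul_zero, add_zero]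

theorem T_β (j : Fin 2) (b : Gp) : (e j * (b * e j * b⁻¹)).β = 1 := by
  rw [Gp.mul_β, e_β, one_mul, conj_β, e_β, mul_one, Gp.β_mul_inv]

theorem two_nil : (2 : NPS Al ℤ).cf [] = 2 := by
  have h : (2 : NPS Al ℤ) = 1 + 1 := one_add_one_eq_two.symm
  rw [h, add_cf, one_nil]; norm_num

theorem e_not_mem : e 0 ∉ HG := by
  rintro ⟨_, h⟩
  obtain ⟨w, y, hwy⟩ := h 1
  have h1 := congrArg (fun f => NPS.cf f []) (hwy 0)
  simp only [e, act, M, add_cf, mul_nil, X_nil, zsmul_cf] at h1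
  simp only [if_true, one_nil, zero_ne_one, and_false, if_false, add_cf, two_nil, X_nil] at h1
  norm_num at h1
  omega

theorem not_relativelyConvex_HG : ¬ RelativelyConvex HG := by
  rintro ⟨l, hts, hconv⟩
  obtain ⟨b00, h00⟩ := exists_b 0 0
  obtain ⟨b01, h01⟩ := exists_b 0 1
  obtain ⟨b10, h10⟩ := exists_b 1 0
  obtain ⟨b11, h11⟩ := exists_b 1 1
  -- the two rows of the matrix
  have hr0 : (e 0 * (b00 * e 0 * b00⁻¹)) * (e 1 * (b01 * e 1 * b01⁻¹)) ∈ HG := by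
    refine ⟨by rw [Gp.mul_β, T_β, T_β, one_mul], ?_⟩
    have : ((e 0 * (b00 * e 0 * b00⁻¹)) * (e 1 * (b01 * e 1 * b01⁻¹))).v = fun j => M 0 j := by
      funext j
      rw [Gp.mul_v, T_β, one_mul, T_v 0 0 h00, T_v 0 1 h01]
      fin_cases j <;> simp [M]
    rw [this]
    exact inH_row 0
  have hr1 : (e 0 * (b10 * e 0 * b10⁻¹)) * (e 1 * (b11 * e 1 * b11⁻¹))⁻¹ ∈ HG := by
    have hb1 : ((e 1 * (b11 * e 1 * b11⁻¹))⁻¹).β = 1 := by
      have := Gp.inv_β_mul (e 1 * (b11 * e 1 * b11⁻¹))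
      rwa [T_β, mul_one] at this
    refine ⟨by rw [Gp.mul_β, T_β, hb1, one_mul], ?_⟩
    have : ((e 0 * (b10 * e 0 * b10⁻¹)) * (e 1 * (b11 * e 1 * b11⁻¹))⁻¹).v
        = fun j => M 1 j := by
      funext j
      rw [Gp.mul_v, T_β, one_mul, Gp.inv_v, hb1, T_v 1 0 h10, T_v 1 1 h11]
      fin_cases j <;> simp [M]
    rw [this]
    exact inH_row 1
  letI := l
  have hmul : ∀ a b x y : Gp, a ≤ b → x * a * y ≤ x * b * y := hts
  -- consequences of the sign of a basis element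
  have pos : ∀ (j : Fin 2) (b : Gp), 1 ≤ e j → e j ≤ e j * (b * e j * b⁻¹) := by
    intro j b hj
    have h1 := hmul _ _ b b⁻¹ hj
    rw [mul_one, mul_inv_cancel] at h1
    have h2 := hmul _ _ (e j) 1 h1
    simpa using h2
  have neg : ∀ (j : Fin 2) (b : Gp), e j ≤ 1 → e j * (b * e j * b⁻¹) ≤ e j := by
    intro j b hj
    have h1 := hmul _ _ b b⁻¹ hj
    rw [mul_one, mul_inv_cancel] at h1
    have h2 := hmul _ _ (e j) 1 h1
    simpa using h2
  have mulr : ∀ a t : Gp, 1 ≤ t → a ≤ a * t := by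
    intro a t ht
    have := hmul _ _ a 1 ht
    simpa using this
  have mulr' : ∀ a t : Gp, t ≤ 1 → a * t ≤ a := by
    intro a t ht
    have := hmul _ _ a 1 ht
    simpa using this
  have invp : ∀ t : Gp, t ≤ 1 → 1 ≤ t⁻¹ := by
    intro t ht
    have := hmul _ _ t⁻¹ 1 ht
    simpa using this
  have invn : ∀ t : Gp, 1 ≤ t → t⁻¹ ≤ 1 := by
    intro t ht
    have := hmul _ _ t⁻¹ 1 ht
    simpa using this
  have hc : ∀ r ∈ HG, (1 ≤ e 0 ∧ e 0 ≤ r ∨ r ≤ e 0 ∧ e 0 ≤ 1) → False := by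
    rintro r hr (⟨h1, h2⟩ | ⟨h1, h2⟩)
    · exact e_not_mem (hconv 1 HG.one_mem r hr _ h1 h2)
    · exact e_not_mem (hconv r hr 1 HG.one_mem _ h1 h2)
  rcases le_total (1 : Gp) (e 0) with h0 | h0 <;> rcases le_total (1 : Gp) (e 1) with h1 | h1
  · exact hc _ hr0 (Or.inl ⟨h0, le_trans (pos 0 b00 h0) (mulr _ _ (le_trans h1 (pos 1 b01 h1)))⟩)
  · exact hc _ hr1 (Or.inl ⟨h0, le_trans (pos 0 b10 h0)
      (mulr _ _ (invp _ (le_trans (neg 1 b11 h1) h1)))⟩)
  · exact hc _ hr1 (Or.inr ⟨le_trans (mulr' _ _ (invn _ (le_trans h1 (pos 1 b11 h1))))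
      (neg 0 b10 h0), h0⟩)
  · exact hc _ hr0 (Or.inr ⟨le_trans (mulr' _ _ (le_trans (neg 1 b01 h1) h1))
      (neg 0 b00 h0), h0⟩)

/-- There are an orderable group `G` and a family `K` of relatively convex subgroups of `G`
whose union is a subgroup `H` of `G`, which is normal and hence infrainvariant, such that `H`
is not relatively convex. -/
theorem result :
    ∃ (G : Type) (_ : Group G), Orderable G ∧
      ∃ (I : Type) (K : I → Subgroup G) (H : Subgroup G),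
        (∀ i, RelativelyConvex (K i)) ∧ (H : Set G) = ⋃ i, (K i : Set G) ∧
        H.Normal ∧ Infrainvariant H ∧ ¬ RelativelyConvex H := by
  refine ⟨Gp, inferInstance, ?_, {h : Fin 2 → NPS Al ℤ // InH h},
    fun h => Kh (fun j => incl (h.1 j)), HG, fun h => relativelyConvex_Kh _, ?_, normal_HG,
    infrainvariant_of_normal normal_HG, not_relativelyConvex_HG⟩
  · obtain ⟨l, hl, _⟩ := relativelyConvex_Kh 0
    exact ⟨l, hl⟩
  · ext x
    rw [Set.mem_iUnion]
    constructor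
    · intro hx
      obtain ⟨h1, h2⟩ := (mem_HG x).mp hx
      exact ⟨⟨x.v, h2⟩, h1, 1, fun j => by rw [one_mul]⟩
    · rintro ⟨⟨h, hh⟩, h1, s, hs⟩
      exact (mem_HG x).mpr ⟨h1, inH_of_smul hh s hs⟩

end Pool.Agent.Results.MP_fb8dd6_al.KokorinUnion
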